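import Pool.Agent.Lib_MP_7c306c_al.General
import Mathlib.Algebra.DirectSum.Module
import Mathlib.Algebra.CharP.Two
import Mathlib.Data.ZMod.Basic

/-! # Every `ℤ/2`-grading of the infinite-dimensional Grassmann algebra is homogeneous up to
graded isomorphism (characteristic different from two) -/

set_option autoImplicit false

namespace Pool.Agent.Results.MP_7c306c_al.EveryGradingHomogeneous

open ExteriorAlgebra Module

/-- The sign automorphism of a two-term grading. -/
theorem exists_sign {F : Type*} [Field F] {E : Type*} [Ring E] [Algebra F E]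
    (P Q : Submodule F E) (h : IsCompl P Q)
    (h00 : ∀ x ∈ P, ∀ y ∈ P, x * y ∈ P) (h01 : ∀ x ∈ P, ∀ y ∈ Q, x * y ∈ Q)
    (h10 : ∀ x ∈ Q, ∀ y ∈ P, x * y ∈ Q) (h11 : ∀ x ∈ Q, ∀ y ∈ Q, x * y ∈ P) :
    ∃ φ : E →ₐ[F] E, (∀ x ∈ P, φ x = x) ∧ (∀ x ∈ Q, φ x = -x) := by
  have hdec : ∀ x : E, ∃ a ∈ P, ∃ b ∈ Q, x = a + b := by
    intro x
    have : x ∈ P ⊔ Q := by rw [h.sup_eq_top]; trivial
    obtain ⟨a, ha, b, hb, hab⟩ := Submodule.mem_sup.mp this
    exact ⟨a, ha, b, hb, hab.symm⟩
  set p : E →ₗ[F] E := P.projection Q h with hp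
  have hpP : ∀ x ∈ P, p x = x := fun x hx => Submodule.projection_apply_of_mem_left h hx
  have hpQ : ∀ x ∈ Q, p x = 0 := fun x hx => by
    rw [hp, Submodule.projection_apply, (Submodule.projectionOnto_apply_eq_zero_iff h).mpr hx]
    rfl
  set φL : E →ₗ[F] E := p + p - LinearMap.id with hφL
  have hP : ∀ x ∈ P, φL x = x := by
    intro x hx
    simp only [hφL, LinearMap.sub_apply, LinearMap.add_apply, LinearMap.id_apply]
    rw [hpP x hx]; abel
  have hQ : ∀ x ∈ Q, φL x = -x := by
    intro x hx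
    simp only [hφL, LinearMap.sub_apply, LinearMap.add_apply, LinearMap.id_apply]
    rw [hpQ x hx]; abel
  have hmul : ∀ x y, φL (x * y) = φL x * φL y := by
    intro x y
    obtain ⟨a, ha, b, hb, rfl⟩ := hdec x
    obtain ⟨c, hc, d, hd, rfl⟩ := hdec y
    simp only [add_mul, mul_add, map_add]
    rw [hP a ha, hP c hc, hQ b hb, hQ d hd, hP _ (h00 a ha c hc), hQ _ (h01 a ha d hd),
      hQ _ (h10 b hb c hc), hP _ (h11 b hb d hd)]
    noncomm_ring
  -- the unit is homogeneous of degree zero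
  have hone : φL 1 = 1 := by
    obtain ⟨u, hu, v, hv, huv⟩ := hdec 1
    have hxv : ∀ x : E, x * v = 0 := by
      intro x
      obtain ⟨a, ha, b, hb, rfl⟩ := hdec x
      have h1 : a * v = 0 := by
        have h2 : a - a * u = a * v := by
          have : a = a * u + a * v := by rw [← mul_add, ← huv, mul_one]
          rw [sub_eq_iff_eq_add, add_comm]; exact this
        have h3 : a * v ∈ P := h2 ▸ P.sub_mem ha (h00 a ha u hu)
        exact Submodule.disjoint_def.mp h.disjoint _ h3 (h01 a ha v hv)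
      have h4 : b * v = 0 := by
        have h2 : b - b * u = b * v := by
          have : b = b * u + b * v := by rw [← mul_add, ← huv, mul_one]
          rw [sub_eq_iff_eq_add, add_comm]; exact this
        have h3 : b * v ∈ Q := h2 ▸ Q.sub_mem hb (h10 b hb u hu)
        exact Submodule.disjoint_def.mp h.disjoint _ (h11 b hb v hv) h3
      rw [add_mul, h1, h4, add_zero]
    have hv0 : v = 0 := by simpa using hxv 1
    rw [hv0, add_zero] at huv
    rw [huv]
    exact hP u hu
  exact ⟨AlgHom.ofLinearMap φL hone hmul, hP, hQ⟩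

/-- **Main theorem.** Let `F` be a field of characteristic different from `2` and let `L` be an
`F`-vector space with a countably infinite basis `e`. For every `ℤ/2`-grading `A` of the
Grassmann algebra `E` of `L` there is a homogeneous grading `B` of `E` (each `e n` lies in `B 0`
or in `B 1`) and an algebra automorphism `f` of `E` with `f (A i) = B i` for `i = 0, 1`. -/
theorem result {F : Type*} [Field F] (hF : ringChar F ≠ 2) {L : Type*} [AddCommGroup L]
    [Module F L] (e : Basis ℕ F L) (A : ZMod 2 → Submodule F (ExteriorAlgebra F L))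
    (hA : DirectSum.IsInternal A)
    (hmul : ∀ i j : ZMod 2, ∀ x ∈ A i, ∀ y ∈ A j, x * y ∈ A (i + j)) :
    ∃ B : ZMod 2 → Submodule F (ExteriorAlgebra F L),
      DirectSum.IsInternal B ∧
      (∀ i j : ZMod 2, ∀ x ∈ B i, ∀ y ∈ B j, x * y ∈ B (i + j)) ∧
      (∀ n : ℕ, ι F (e n) ∈ B 0 ∨ ι F (e n) ∈ B 1) ∧
      ∃ f : ExteriorAlgebra F L ≃ₐ[F] ExteriorAlgebra F L,
        ∀ i : ZMod 2, (A i).map f.toLinearMap = B i := by
  have h2 : (2 : F) ≠ 0 := Ring.two_ne_zero hF
  have : NeZero (2 : F) := ⟨h2⟩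
  have huniv : (Set.univ : Set (ZMod 2)) = {0, 1} := by
    ext i
    simp only [Set.mem_univ, Set.mem_insert_iff, Set.mem_singleton_iff, true_iff]
    revert i; decide
  have h01 : (0 : ZMod 2) ≠ 1 := by decide
  have hcompl : IsCompl (A 0) (A 1) :=
    (DirectSum.isInternal_submodule_iff_isCompl A h01 huniv).mp hA
  have h11 : (1 : ZMod 2) + 1 = 0 := by decide
  obtain ⟨φ, hφ0, hφ1⟩ := exists_sign (A 0) (A 1) hcompl
    (fun x hx y hy => by simpa using hmul 0 0 x hx y hy)
    (fun x hx y hy => by simpa using hmul 0 1 x hx y hy)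
    (fun x hx y hy => by simpa using hmul 1 0 x hx y hy)
    (fun x hx y hy => by rw [← h11]; exact hmul 1 1 x hx y hy)
  have hdec : ∀ x, ∃ a ∈ A 0, ∃ b ∈ A 1, x = a + b := by
    intro x
    have : x ∈ A 0 ⊔ A 1 := by rw [hcompl.sup_eq_top]; trivial
    obtain ⟨a, ha, b, hb, hab⟩ := Submodule.mem_sup.mp this
    exact ⟨a, ha, b, hb, hab.symm⟩
  have hφφ : ∀ x, φ (φ x) = x := by
    intro x
    obtain ⟨a, ha, b, hb, rfl⟩ := hdec x
    rw [map_add, hφ0 a ha, hφ1 b hb, map_add, map_neg, hφ0 a ha, hφ1 b hb, neg_neg]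
  -- eigenvectors are homogeneous
  have hm0 : ∀ x, φ x = x → x ∈ A 0 := by
    intro x hx
    obtain ⟨a, ha, b, hb, rfl⟩ := hdec x
    rw [map_add, hφ0 a ha, hφ1 b hb] at hx
    have h3 : (2 : F) • b = 0 := by
      have h4 : -b = b := add_left_cancel hx
      rw [two_smul]
      nth_rewrite 1 [← h4]
      exact neg_add_cancel b
    have h4 : b = 0 := (smul_eq_zero.mp h3).resolve_left h2
    rw [h4, add_zero]
    exact ha
  have hm1 : ∀ x, φ x = -x → x ∈ A 1 := by
    intro x hx
    obtain ⟨a, ha, b, hb, rfl⟩ := hdec x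
    rw [map_add, hφ0 a ha, hφ1 b hb, neg_add] at hx
    have h3 : (2 : F) • a = 0 := by
      have h4 : a = -a := add_right_cancel hx
      rw [two_smul]
      nth_rewrite 1 [h4]
      exact neg_add_cancel a
    have h4 : a = 0 := (smul_eq_zero.mp h3).resolve_left h2
    rw [h4, zero_add]
    exact hb
  -- transport to the standard model
  let θ : ExteriorAlgebra F L ≃ₐ[F] LibGrassmann.GE F :=
    AlgEquiv.ofAlgHom (ExteriorAlgebra.map e.repr.toLinearMap)
      (ExteriorAlgebra.map e.repr.symm.toLinearMap)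
      (by rw [ExteriorAlgebra.map_comp_map, LinearEquiv.comp_coe]; simp [ExteriorAlgebra.map_id])
      (by rw [ExteriorAlgebra.map_comp_map, LinearEquiv.comp_coe]; simp [ExteriorAlgebra.map_id])
  have hθ : ∀ n, θ (ι F (e n)) = LibGrassmann.e n := by
    intro n
    show ExteriorAlgebra.map e.repr.toLinearMap (ι F (e n)) = _
    rw [ExteriorAlgebra.map_apply_ι]
    simp [LibGrassmann.e]
  let φ' : LibGrassmann.GE F →ₐ[F] LibGrassmann.GE F :=
    ((θ : ExteriorAlgebra F L →ₐ[F] LibGrassmann.GE F).comp φ).comp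
      (θ.symm : LibGrassmann.GE F →ₐ[F] ExteriorAlgebra F L)
  have hφ'x : ∀ x, φ' x = θ (φ (θ.symm x)) := fun x => rfl
  obtain ⟨G, ε, hε, hG⟩ := LibGrassmann.linearize φ' (fun x => by
    rw [hφ'x, hφ'x, AlgEquiv.symm_apply_apply, hφφ, AlgEquiv.apply_symm_apply])
  let k : ExteriorAlgebra F L ≃ₐ[F] ExteriorAlgebra F L := (θ.trans G).trans θ.symm
  have hk : ∀ n, φ (k (ι F (e n))) = ε n • k (ι F (e n)) := by
    intro n
    have h3 : k (ι F (e n)) = θ.symm (G (LibGrassmann.e n)) := by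
      show θ.symm (G (θ (ι F (e n)))) = _
      rw [hθ]
    have h4 := congrArg θ.symm (hG n)
    rw [hφ'x, AlgEquiv.symm_apply_apply, map_smul] at h4
    rw [h3]
    exact h4
  let f : ExteriorAlgebra F L ≃ₐ[F] ExteriorAlgebra F L := k.symm
  refine ⟨fun i => (A i).map f.toLinearMap, ?_, ?_, ?_, f, fun i => rfl⟩
  · rw [DirectSum.isInternal_submodule_iff_isCompl _ h01 huniv]
    exact (Submodule.orderIsoMapComap f.toLinearEquiv).isCompl hcompl
  · rintro i j _ ⟨x, hx, rfl⟩ _ ⟨y, hy, rfl⟩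
    exact ⟨x * y, hmul i j x hx y hy, map_mul f x y⟩
  · intro n
    have hsq : ε n = 1 ∨ ε n = -1 := mul_self_eq_one_iff.mp (hε n)
    rcases hsq with h3 | h3
    · left
      refine ⟨k (ι F (e n)), hm0 _ ?_, ?_⟩
      · rw [hk, h3, one_smul]
      · exact k.symm_apply_apply _
    · right
      refine ⟨k (ι F (e n)), hm1 _ ?_, ?_⟩
      · rw [hk, h3, neg_smul, one_smul]
      · exact k.symm_apply_apply _

end Pool.Agent.Results.MP_7c306c_al.EveryGradingHomogeneous
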